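import Mathlib
import Pool.Agent.Lib.MP_4a6af7_co.Deg.Cols

/-! Gluing rainbow matchings and systems of representatives on even cycles. -/

set_option autoImplicit false

namespace Pool.Agent.Lib.MP_4a6af7_co.Thr

open Finset Pool.Agent.Lib.MP_4a6af7_co.Lin Pool.Agent.Lib.MP_4a6af7_co.Deg

variable {V I : Type} [DecidableEq V] [DecidableEq I]

/-- A rainbow matching for the rows in `J`. -/
def RO (J : Finset I) (A : I → Finset (Sym2 V)) : Prop :=
  ∃ e : I → Sym2 V, (∀ j ∈ J, e j ∈ A j) ∧ ∀ j ∈ J, ∀ k ∈ J, j ≠ k → ∀ v, v ∈ e j → v ∉ e k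

/-- As many rows as the smallest trace on `F` always have a rainbow matching inside `F`. -/
def Perf (I : Type) (F : Finset (Sym2 V)) : Prop :=
  ∀ (S : Finset I) (A : I → Finset (Sym2 V)),
    (∀ j ∈ S, IsMat id (A j) ∧ S.card ≤ (A j ∩ F).card) → RO S fun j => A j ∩ F

/-- No edge of `E` outside `F` touches `F`. -/
def Iso (E F : Finset (Sym2 V)) : Prop := ∀ e ∈ F, ∀ f ∈ E, f ∉ F → ∀ v, v ∈ e → v ∉ f

/-- Short cycles are isolated, and `E` splits into cycles and perfect parts. -/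
def Cls (I : Type) [Fintype I] (E : Finset (Sym2 V)) : Prop :=
  (∀ F ⊆ E, Circ F → F.card ≤ 2 * Fintype.card I → Iso E F) ∧
    ∃ 𝒞 : Finset (Finset (Sym2 V)), (∀ F ∈ 𝒞, F ⊆ E ∧ (Perf I F ∨ Circ F)) ∧
      (∀ e ∈ E, ∃ F ∈ 𝒞, e ∈ F) ∧
      ∀ F ∈ 𝒞, ∀ F' ∈ 𝒞, F ≠ F' → ∀ e ∈ F, ∀ f ∈ F', ∀ v, v ∈ e → v ∉ f

/-- The edges of `P` have distinct representatives among the rows in `J`. -/
def Srv (J : Finset I) (A : I → Finset (Sym2 V)) (P : Finset (Sym2 V)) : Prop :=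
  ∃ S ⊆ J, S.card = P.card ∧ ∃ g : I → Sym2 V, Set.InjOn g S ∧ ∀ j ∈ S, g j ∈ A j ∧ g j ∈ P

variable {J S U : Finset I} {A B B' : I → Finset (Sym2 V)} {E F P : Finset (Sym2 V)}

omit [DecidableEq V] in
theorem RO.of_rb [Nonempty (Sym2 V)] (h : RB fun k : {j // j ∈ J} => A k.1) : RO J A := by
  obtain ⟨e, e1, e2⟩ := h
  refine ⟨fun j => if h : j ∈ J then e ⟨j, h⟩ else Classical.arbitrary _, fun j hj => ?_,
    fun j hj k hk h => ?_⟩
  · simp only [dif_pos hj]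
    exact e1 ⟨j, hj⟩
  · simp only [dif_pos hj, dif_pos hk]
    exact e2 _ _ fun a => h (congrArg Subtype.val a)

omit [DecidableEq V] in
theorem RO.glue (h1 : RO S B) (h2 : RO (J \ S) B') (s1 : ∀ j, B j ⊆ A j ∨ j ∉ S)
    (s2 : ∀ j, B' j ⊆ A j)
    (hd : ∀ j ∈ S, ∀ k ∈ J, ∀ e ∈ B j, ∀ f ∈ B' k, ∀ v, v ∈ e → v ∉ f) : RO J A := by
  obtain ⟨e, e1, e2⟩ := h1
  obtain ⟨f, f1, f2⟩ := h2
  refine ⟨fun j => if j ∈ S then e j else f j, fun j hj => ?_, fun j hj k hk h v => ?_⟩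
  · by_cases b : j ∈ S
    · simp only [if_pos b]
      exact (s1 j).resolve_right (not_not.mpr b) (e1 j b)
    · simp only [if_neg b]
      exact s2 j (f1 j (mem_sdiff.mpr ⟨hj, b⟩))
  · by_cases b : j ∈ S <;> by_cases b' : k ∈ S
    · simp only [if_pos b, if_pos b']
      exact e2 j b k b' h v
    · simp only [if_pos b, if_neg b']
      exact hd j b k hk _ (e1 j b) _ (f1 k (mem_sdiff.mpr ⟨hk, b'⟩)) v
    · simp only [if_neg b, if_pos b']
      exact fun a a' => hd k b' j hj _ (e1 k b') _ (f1 j (mem_sdiff.mpr ⟨hj, b⟩)) v a' a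
    · simp only [if_neg b, if_neg b']
      exact f2 j (mem_sdiff.mpr ⟨hj, b⟩) k (mem_sdiff.mpr ⟨hk, b'⟩) h v

theorem serve (hF : Iso E F) (hA : ∀ j ∈ J, A j ⊆ E)
    (h1 : RO S fun j => A j ∩ F) (h2 : RO (J \ S) fun j => A j \ F) : RO J A :=
  h1.glue h2 (fun _ => Or.inl inter_subset_left) (fun _ => sdiff_subset)
    fun _ _ k hk e he f hf =>
      hF e (mem_inter.mp he).2 f (hA k hk (mem_sdiff.mp hf).1) (mem_sdiff.mp hf).2

theorem half (hC : Circ F) (nd : ∀ e ∈ F, ¬ e.IsDiag) {M : Finset (Sym2 V)} (hM : IsMat id M) :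
    2 * (M ∩ F).card ≤ F.card :=
  (card_vs (hM.mono inter_subset_left) fun e he => nd e (mem_inter.mp he).2).ge.trans
    ((card_le_card (vs_mono inter_subset_right)).trans (vs_le hC.2.1))

omit [DecidableEq I] in
theorem ro_col [Nonempty (Sym2 V)] [DecidableEq I] (hF : Circ F) (hc : 2 * S.card + 1 ≤ F.card)
    (h : ∀ j ∈ S, IsMat id (A j) ∧ S.card ≤ (A j ∩ F).card) : RO S fun j => A j ∩ F :=
  RO.of_rb (rb_circ hF _ (fun _ => inter_subset_right)
    (fun k => (h k.1 k.2).1.mono inter_subset_left)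
    (fun k => (Fintype.card_coe S).le.trans (h k.1 k.2).2) (by rw [Fintype.card_coe]; exact hc))

omit [DecidableEq I] in
theorem ro_inj (hP : IsMat id P) (hF : P ⊆ F) {g : I → Sym2 V} (h1 : Set.InjOn g S)
    (h2 : ∀ j ∈ S, g j ∈ A j ∧ g j ∈ P) : RO S fun j => A j ∩ F :=
  ⟨g, fun j hj => mem_inter.mpr ⟨(h2 j hj).1, hF (h2 j hj).2⟩, fun j hj k hk h =>
    hP _ (h2 j hj).2 _ (h2 k hk).2 fun a => h (h1 hj hk a)⟩

theorem ext_inj [Nonempty (Sym2 V)] {g : I → Sym2 V} (h1 : Set.InjOn g S)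
    (h2 : ∀ j ∈ S, g j ∈ A j ∧ g j ∈ P) (hU : ∀ u ∈ U, P ⊆ A u)
    (hc : S.card + U.card ≤ P.card) :
    ∃ g : I → Sym2 V, Set.InjOn g (S ∪ U : Finset I) ∧ ∀ j ∈ S ∪ U, g j ∈ A j ∧ g j ∈ P := by
  obtain ⟨f, f1, f2⟩ := U.finite_toSet.exists_injOn_of_encard_le
    (t := ((P \ S.image g : Finset (Sym2 V)) : Set (Sym2 V))) (by
      rw [Set.encard_coe_eq_coe_finsetCard, Set.encard_coe_eq_coe_finsetCard, Nat.cast_le]
      have := le_card_sdiff (S.image g) P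
      have := card_image_le (s := S) (f := g)
      omega)
  have f3 : ∀ u ∈ U, f u ∈ P ∧ f u ∉ S.image g := fun u hu => mem_sdiff.mp (f1 hu)
  have f4 : ∀ j ∈ S ∪ U, j ∉ U → j ∈ S := fun j hj b => (mem_union.mp hj).resolve_right b
  refine ⟨fun j => if j ∈ U then f j else g j, fun j hj k hk h => ?_, fun j hj => ?_⟩
  · by_cases b : j ∈ U <;> by_cases b' : k ∈ U
    · simp only [if_pos b, if_pos b'] at h
      exact f2 b b' h
    · simp only [if_pos b, if_neg b'] at h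
      exact absurd (h ▸ mem_image_of_mem g (f4 k hk b')) (f3 j b).2
    · simp only [if_neg b, if_pos b'] at h
      exact absurd (h ▸ mem_image_of_mem g (f4 j hj b)) (f3 k b').2
    · simp only [if_neg b, if_neg b'] at h
      exact h1 (f4 j hj b) (f4 k hk b') h
  · by_cases b : j ∈ U
    · simp only [if_pos b]
      exact ⟨hU j b (f3 j b).1, (f3 j b).1⟩
    · simp only [if_neg b]
      exact h2 j (f4 j hj b)

theorem all_inj [Nonempty (Sym2 V)] (hU : ∀ u ∈ U, P ⊆ A u) (hc : U.card ≤ P.card) :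
    ∃ g : I → Sym2 V, Set.InjOn g U ∧ ∀ j ∈ U, g j ∈ A j ∧ g j ∈ P := by
  have := ext_inj (S := ∅) (g := fun _ => Classical.arbitrary _) (by simp) (by simp) hU
    (by simpa using hc)
  rwa [empty_union] at this

theorem hall [Nonempty (Sym2 V)] (h : ¬ Srv J A P) :
    ∃ X ⊆ P, (J.filter fun j => ∃ e ∈ X, e ∈ A j).card + 1 ≤ X.card := by
  classical
  by_contra hc
  push Not at hc
  obtain ⟨f, f1, f2⟩ := (all_card_le_biUnion_card_iff_exists_injective
    (fun e : P => J.filter fun j => e.1 ∈ A j)).mp fun s => by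
      have := hc (s.map (Function.Embedding.subtype _)) fun e he => by
        obtain ⟨x, -, rfl⟩ := mem_map.mp he
        exact x.2
      rw [card_map] at this
      refine (Nat.le_of_lt_succ this).trans (card_le_card fun j hj => ?_)
      obtain ⟨j1, e, e1, e2⟩ := mem_filter.mp hj
      obtain ⟨x, x1, rfl⟩ := mem_map.mp e1
      exact mem_biUnion.mpr ⟨x, x1, mem_filter.mpr ⟨j1, e2⟩⟩
  have key : ∀ j, ∃ e : Sym2 V, ∀ x : P, f x = j → x.1 = e := fun j => by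
    by_cases b : ∃ x, f x = j
    · obtain ⟨x, rfl⟩ := b
      exact ⟨x.1, fun y hy => by rw [f1 hy]⟩
    · exact ⟨Classical.arbitrary _, fun y hy => absurd ⟨y, hy⟩ b⟩
  choose g hg using key
  refine h ⟨univ.image f, fun j hj => ?_, by rw [card_image_of_injective _ f1]; simp, g,
    fun j hj k hk e => ?_, fun j hj => ?_⟩
  · obtain ⟨x, -, rfl⟩ := mem_image.mp hj
    exact (mem_filter.mp (f2 x)).1
  · obtain ⟨x, -, rfl⟩ := mem_image.mp hj
    obtain ⟨y, -, rfl⟩ := mem_image.mp hk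
    rw [← hg _ x rfl, ← hg _ y rfl] at e
    rw [Subtype.ext e]
  · obtain ⟨x, -, rfl⟩ := mem_image.mp hj
    rw [← hg _ x rfl]
    exact ⟨(mem_filter.mp (f2 x)).2, x.2⟩

theorem col [Nonempty (Sym2 V)] (hC : Circ F) (nd : ∀ e ∈ F, ¬ e.IsDiag) {b : ℕ}
    (hc : F.card = 2 * (b + 1)) (hM : ∀ j ∈ J, IsMat id (A j))
    (hn : ∀ P ⊆ F, IsMat id P → P.card = b + 1 → ¬ Srv J A P) :
    ∃ θ ≤ b, ∃ N ⊆ J, N.card ≤ b + θ ∧ ∀ j ∈ J, j ∉ N → (A j ∩ F).card + θ ≤ b := by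
  classical
  have hm : ∀ j ∈ J, IsMat id (A j ∩ F) := fun j hj => (hM j hj).mono inter_subset_left
  by_cases h : (J.filter fun j => (A j ∩ F).card = b + 1).card ≤ b
  · refine ⟨0, Nat.zero_le _, _, filter_subset _ _, h, fun j hj hN => ?_⟩
    have := half hC nd (hM j hj)
    have : (A j ∩ F).card ≠ b + 1 := fun e => hN (mem_filter.mpr ⟨hj, e⟩)
    omega
  obtain ⟨W, w1, w2⟩ := exists_subset_card_eq (Nat.succ_le_of_lt (not_le.mp h))
  have w3 : ∀ j ∈ W, j ∈ J ∧ (A j ∩ F).card = b + 1 := fun j hj => mem_filter.mp (w1 hj)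
  obtain ⟨j₀, h0⟩ : W.Nonempty := card_pos.mp (by omega)
  obtain ⟨j₁, h1, hne⟩ : ∃ j ∈ W, A j ∩ F ≠ A j₀ ∩ F := by
    by_contra a
    push Not at a
    exact hn _ inter_subset_right (hm _ (w3 _ h0).1) (w3 _ h0).2 ⟨W, fun j hj => (w3 j hj).1,
      w2.trans (w3 _ h0).2.symm, all_inj (fun u hu => a u hu ▸ inter_subset_left)
        (w2.trans (w3 _ h0).2.symm).le⟩
  have pm : ∀ j ∈ W, ∀ k ∈ W, ∀ e ∈ F, (e ∈ A j ∩ F ↔ e ∈ A k ∩ F) → A j ∩ F = A k ∩ F :=
    fun j hj k hk e he h => pm_eq hC nd inter_subset_right inter_subset_right (hm _ (w3 _ hj).1)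
      (hm _ (w3 _ hk).1) (by rw [(w3 _ hj).2, hc]) (by rw [(w3 _ hk).2, hc]) he h
  have hd : ∀ e ∈ A j₀ ∩ F, e ∉ A j₁ ∩ F := fun e a a' =>
    hne (pm _ h1 _ h0 e (mem_inter.mp a).2 (iff_of_true a' a))
  obtain ⟨X, x1, x2⟩ := hall (hn _ inter_subset_right (hm _ (w3 _ h0).1) (w3 _ h0).2)
  obtain ⟨Y, y1, y2⟩ := hall (hn _ inter_subset_right (hm _ (w3 _ h1).1) (w3 _ h1).2)
  have x3 := (card_le_card x1).trans (w3 _ h0).2.le
  have y3 := (card_le_card y1).trans (w3 _ h1).2.le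
  have n1 := card_union_le (J.filter fun j => ∃ e ∈ X, e ∈ A j) (J.filter fun j => ∃ e ∈ Y, e ∈ A j)
  have n2 : W ⊆ (J.filter fun j => ∃ e ∈ X, e ∈ A j) ∪ (J.filter fun j => ∃ e ∈ Y, e ∈ A j) := by
    intro j hj
    obtain ⟨x, hx⟩ : X.Nonempty := card_pos.mp (by omega)
    obtain ⟨y, hy⟩ : Y.Nonempty := card_pos.mp (by omega)
    by_cases a : x ∈ A j
    · exact mem_union_left _ (mem_filter.mpr ⟨(w3 j hj).1, x, hx, a⟩)
    · have := pm _ hj _ h1 x (mem_inter.mp (x1 hx)).2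
        (iff_of_false (fun a' => a (mem_inter.mp a').1) (hd x (x1 hx)))
      exact mem_union_right _ (mem_filter.mpr ⟨(w3 j hj).1, y, hy,
        (mem_inter.mp (this ▸ y1 hy : y ∈ A j ∩ F)).1⟩)
  have n3 := card_le_card n2
  refine ⟨X.card + Y.card - (b + 2), by omega, _, union_subset (filter_subset _ _)
    (filter_subset _ _), n1.trans (by omega), fun j hj hN => ?_⟩
  have c1 : (X ∪ Y).card = X.card + Y.card :=
    card_union_of_disjoint (disjoint_left.mpr fun e a a' => hd e (x1 a) (y1 a'))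
  have c2 : ((A j ∩ F) ∪ (X ∪ Y)).card = (A j ∩ F).card + (X ∪ Y).card :=
    card_union_of_disjoint (disjoint_left.mpr fun e a a' => hN ((mem_union.mp a').elim
      (fun a'' => mem_union_left _ (mem_filter.mpr ⟨hj, e, a'', (mem_inter.mp a).1⟩))
      fun a'' => mem_union_right _ (mem_filter.mpr ⟨hj, e, a'', (mem_inter.mp a).1⟩)))
  have c3 := card_le_card (union_subset (inter_subset_right : A j ∩ F ⊆ F)
    (union_subset (x1.trans inter_subset_right) (y1.trans inter_subset_right)))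
  omega

omit [DecidableEq I] in
theorem loss {M : Finset (Sym2 V)} (hM : IsMat id M) (S : Finset I) (e : I → Sym2 V)
    [DecidablePred fun f : Sym2 V => ∀ i ∈ S, ∀ v, v ∈ e i → v ∉ f] :
    M.card ≤ (M.filter fun f => ∀ i ∈ S, ∀ v, v ∈ e i → v ∉ f).card + 2 * S.card := by
  rw [← card_filter_add_card_filter_not (s := M) fun f => ∀ i ∈ S, ∀ v, v ∈ e i → v ∉ f]
  refine Nat.add_le_add_left ?_ _
  have h1 : (S.biUnion fun i => (e i).toFinset).card ≤ 2 * S.card := by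
    refine card_biUnion_le.trans ((sum_le_card_nsmul S _ 2 fun i _ => ?_).trans
      (by rw [smul_eq_mul, mul_comm]))
    rw [Sym2.card_toFinset]
    split_ifs <;> omega
  refine le_trans ?_ h1
  refine card_le_card_of_forall_subsingleton (fun f v => v ∈ f) (fun f hf => ?_) fun v _ => ?_
  · have := (mem_filter.mp hf).2
    push Not at this
    obtain ⟨i, i1, v, v1, v2⟩ := this
    exact ⟨v, mem_biUnion.mpr ⟨i, i1, Sym2.mem_toFinset.mpr v1⟩, v2⟩
  · intro f hf g hg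
    by_contra a
    exact hM f (mem_filter.mp hf.1).1 g (mem_filter.mp hg.1).1 a v hf.2 hg.2

end Pool.Agent.Lib.MP_4a6af7_co.Thr
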