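import Mathlib
import Pool.Agent.Lib.MP_4a6af7_co.Thr.Tools

/-! Graphs in which every vertex of a short cycle has degree two. -/

set_option autoImplicit false

namespace Pool.Agent.Lib.MP_4a6af7_co.Thr

open Finset SimpleGraph Pool.Agent.Lib.MP_4a6af7_co.Lin Pool.Agent.Lib.MP_4a6af7_co.Deg

variable {V : Type} [DecidableEq V]

omit [DecidableEq V] in
open Classical in
theorem rb_girth (G : SimpleGraph V) {n : ℕ} (hn : 2 ≤ n) (hg : ((3 * n - 1 : ℕ) : ℕ∞) ≤ G.egirth)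
    {K : Type} [Fintype K] (hK : Fintype.card K ≤ n) (B : K → Finset (Sym2 V))
    (h1 : ∀ k, ∀ e ∈ B k, e ∈ G.edgeSet) (h2 : ∀ k, IsMat id (B k))
    (h3 : ∀ k, Fintype.card K ≤ (B k).card) : RB B := by
  obtain ⟨e, e1, e2⟩ := rainbow_of_ac (fun i => B ((Fintype.equivFin K).symm i)) (fun i => h2 _)
    (fun i => h3 _) fun T t1 t2 t3 =>
      (main_ac G (q := Fintype.card K) hg (by omega) (by omega) (by omega) _ T ∅ rfl
        (fun e he => h1 _ _ (t1 e he)) (empty_subset _) (by simp) (by simp) t2).le (by omega)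
  exact ⟨fun k => e (Fintype.equivFin K k), fun k => by simpa using e1 (Fintype.equivFin K k),
    fun k k' h => e2 _ _ fun e => h ((Fintype.equivFin K).injective e)⟩

theorem cyc_set {T : SimpleGraph V} {u : V} {c : T.Walk u u} (hc : c.IsCycle) :
    c.edges.toFinset.card = c.length ∧ c.edges.toFinset.Nonempty ∧ ¬ Leaf c.edges.toFinset := by
  have h0 : c.edges.toFinset.card = c.length := by
    rw [List.toFinset_card_of_nodup hc.edges_nodup, Walk.length_edges]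
  refine ⟨h0, card_pos.mp (by have := hc.three_le_length; omega), fun ⟨x, y, h1, h2⟩ => ?_⟩
  have h3 := (hc.isTrail.even_countP_edges_iff x).mpr fun h => absurd rfl h
  rw [List.countP_eq_length_filter,
    ← List.toFinset_card_of_nodup (hc.edges_nodup.filter _), List.toFinset_filter] at h3
  have : (c.edges.toFinset.filter fun e => decide (x ∈ e) = true) = {s(x, y)} := by
    ext f
    rw [mem_filter, mem_singleton, decide_eq_true_iff]
    exact ⟨fun h => h2 f h.1 h.2, fun h => h ▸ ⟨h1, Sym2.mem_mk_left _ _⟩⟩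
  rw [this] at h3
  simp at h3

theorem circ_sub {P : Finset (Sym2 V)} (h1 : P.Nonempty) (h2 : ¬ Leaf P) : ∃ F ⊆ P, Circ F := by
  classical
  obtain ⟨S, hS, hmin⟩ := exists_min_image (P.powerset.filter fun S => S.Nonempty ∧ ¬ Leaf S) card
    ⟨P, mem_filter.mpr ⟨mem_powerset_self _, h1, h2⟩⟩
  obtain ⟨s1, s2, s3⟩ := mem_filter.mp hS
  rw [mem_powerset] at s1
  refine ⟨S, s1, s2, s3, fun c hc S' a1 a2 => by_contra fun a3 => ?_⟩
  have := hmin S' (mem_filter.mpr ⟨mem_powerset.mpr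
    (a1.trans ((erase_subset _ _).trans s1)), a2, a3⟩)
  have := card_le_card a1
  have := card_erase_add_one hc
  omega

omit [DecidableEq V] in
theorem edge_from (G : SimpleGraph V) {W : Finset (Sym2 V)} (hW : ∀ e ∈ W, e ∈ G.edgeSet) :
    (fromEdgeSet (W : Set (Sym2 V))).edgeSet = (W : Set (Sym2 V)) := by
  rw [edgeSet_fromEdgeSet]
  ext e
  exact ⟨fun h => h.1, fun h => ⟨h, G.not_isDiag_of_mem_edgeSet (hW e h)⟩⟩

theorem circ_cycle (G : SimpleGraph V) {F : Finset (Sym2 V)} (hF : Circ F)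
    (hE : ∀ e ∈ F, e ∈ G.edgeSet) {e : Sym2 V} (he : e ∈ F) {v : V} (hv : v ∈ e) :
    ∃ c : G.Walk v v, c.IsCycle ∧ c.length ≤ F.card := by
  have hTe := edge_from G hE
  have hle : fromEdgeSet (F : Set (Sym2 V)) ≤ G :=
    edgeSet_subset_edgeSet.mp (by rw [hTe]; exact hE)
  by_cases hac : (fromEdgeSet (F : Set (Sym2 V))).IsAcyclic
  · rcases leaf_or_cycle _ F (fun e he => by rw [hTe]; exact he) hF.1 with h | ⟨Q, -, h2, -⟩
    · exact absurd h hF.2.1
    · rw [egirth_eq_top.mpr hac] at h2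
      exact absurd h2 (by simp)
  unfold IsAcyclic at hac
  push Not at hac
  obtain ⟨u, c, hc⟩ := hac
  obtain ⟨c1, c2, c3⟩ := cyc_set hc
  have c4 : c.edges.toFinset ⊆ F := fun f hf => by
    have := c.edges_subset_edgeSet (List.mem_toFinset.mp hf)
    rwa [hTe] at this
  have c5 : e ∈ c.edges := by_contra fun a => c3 (hF.2.2 e he _
    (fun f hf => mem_erase.mpr ⟨fun b => a (List.mem_toFinset.mp (b ▸ hf)), c4 hf⟩) c2)
  have c6 : v ∈ c.support := Walk.mem_support_iff_exists_mem_edges.mpr (Or.inr ⟨e, c5, hv⟩)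
  refine ⟨(c.rotate v c6).mapLe hle, (hc.rotate c6).mapLe _, ?_⟩
  have := card_le_card c4
  have c7 : (c.rotate v c6).length = c.length := by
    rw [← Walk.length_edges, ← Walk.length_edges, (c.rotate_edges v c6).perm.length_eq]
  simp only [Walk.mapLe, Walk.length_map]
  omega

theorem cls [Nonempty (Sym2 V)] (G : SimpleGraph V) {n : ℕ} (hn : 2 ≤ n)
    (hG : ∀ v (c : G.Walk v v), c.IsCycle → c.length + 2 ≤ 3 * n → (G.neighborSet v).encard ≤ 2)
    {E : Finset (Sym2 V)} (hE : ∀ e ∈ E, e ∈ G.edgeSet) : Cls (Fin n) E := by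
  have iso : ∀ F ⊆ E, Circ F → F.card + 2 ≤ 3 * n → Iso E F := by
    intro F f1 f2 f3 e a1 f a2 a3 v b1 b2
    obtain ⟨g, g1, b3, g3⟩ := other f2.2.1 a1 b1
    obtain ⟨c, c1, c2⟩ := circ_cycle G f2 (fun e he => hE e (f1 he)) a1 b1
    obtain ⟨x, rfl⟩ := Sym2.mem_iff_exists.mp b1
    obtain ⟨y, rfl⟩ := Sym2.mem_iff_exists.mp b2
    obtain ⟨z, rfl⟩ := Sym2.mem_iff_exists.mp b3
    have h3 : ({x, y, z} : Set V).encard = 3 := Set.encard_eq_three.mpr
      ⟨x, y, z, fun e => a3 (e ▸ a1), fun e => g3 (e ▸ rfl), fun e => a3 (e ▸ g1), rfl⟩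
    have h4 : ({x, y, z} : Set V) ⊆ G.neighborSet v := by
      rintro w (rfl | rfl | rfl)
      exacts [hE _ (f1 a1), hE _ a2, hE _ (f1 g1)]
    exact absurd (h3 ▸ (Set.encard_le_encard h4).trans (hG v c c1 (by omega))) (by decide)
  refine ⟨fun F f1 f2 f3 => iso F f1 f2 (by rw [Fintype.card_fin] at f3; omega), ?_⟩
  suffices key : ∀ D ⊆ E, ∃ 𝒞 : Finset (Finset (Sym2 V)),
      (∀ F ∈ 𝒞, F ⊆ D ∧ (Perf (Fin n) F ∨ Circ F)) ∧ (∀ e ∈ D, ∃ F ∈ 𝒞, e ∈ F) ∧
      ∀ F ∈ 𝒞, ∀ F' ∈ 𝒞, F ≠ F' → ∀ e ∈ F, ∀ f ∈ F', ∀ v, v ∈ e → v ∉ f from key E Subset.rfl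
  intro D
  induction D using Finset.strongInduction with
  | H D ih =>
  intro hD
  by_cases h : ∃ S ⊆ D, Circ S ∧ S.card + 2 ≤ 3 * n
  · obtain ⟨S, s1, s2, s3⟩ := h
    obtain ⟨𝒞, c1, c2, c3⟩ := ih (D \ S) (sdiff_ssubset s1 s2.1) (sdiff_subset.trans hD)
    have key : ∀ e ∈ S, ∀ f ∈ D \ S, ∀ v, v ∈ e → v ∉ f := fun e a1 f a2 =>
      iso S (s1.trans hD) s2 s3 e a1 f (hD (mem_sdiff.mp a2).1) (mem_sdiff.mp a2).2
    refine ⟨insert S 𝒞, fun F hF => ?_, fun e he => ?_, fun F a1 F' a2 a3 e a4 f a5 v a6 a7 => ?_⟩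
    · rcases mem_insert.mp hF with rfl | hF
      · exact ⟨s1, Or.inr s2⟩
      · exact ⟨(c1 F hF).1.trans sdiff_subset, (c1 F hF).2⟩
    · by_cases b : e ∈ S
      · exact ⟨S, mem_insert_self _ _, b⟩
      · obtain ⟨F, f1, f2⟩ := c2 e (mem_sdiff.mpr ⟨he, b⟩)
        exact ⟨F, mem_insert_of_mem f1, f2⟩
    · rcases mem_insert.mp a1 with b1 | b1 <;> rcases mem_insert.mp a2 with b2 | b2
      · exact a3 (b1.trans b2.symm)
      · exact key e (b1 ▸ a4) f ((c1 _ b2).1 a5) v a6 a7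
      · exact key f (b2 ▸ a5) e ((c1 _ b1).1 a4) v a7 a6
      · exact c3 F b1 F' b2 a3 e a4 f a5 v a6 a7
  have hTe := edge_from G fun e he => hE e (hD he)
  have hg : ((3 * n - 1 : ℕ) : ℕ∞) ≤ (fromEdgeSet (D : Set (Sym2 V))).egirth :=
    le_egirth.mpr fun a w hw => by
      obtain ⟨c1, c2, c3⟩ := cyc_set hw
      obtain ⟨F, f1, f2⟩ := circ_sub c2 c3
      have c4 : w.edges.toFinset ⊆ D := fun f hf => by
        have := w.edges_subset_edgeSet (List.mem_toFinset.mp hf)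
        rwa [hTe] at this
      have c5 : ¬ F.card + 2 ≤ 3 * n := fun b => h ⟨F, f1.trans c4, f2, b⟩
      have := card_le_card f1
      exact Nat.cast_le.mpr (by omega)
  have hP : Perf (Fin n) D := fun S A hA => RO.of_rb (rb_girth _ hn hg
    (by rw [Fintype.card_coe]; simpa using card_le_univ S) _
    (fun k e he => by rw [hTe]; exact (mem_inter.mp he).2)
    (fun k => (hA k.1 k.2).1.mono inter_subset_left)
    fun k => (Fintype.card_coe S).le.trans (hA k.1 k.2).2)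
  exact ⟨{D}, by simp [hP], by simp, by simp⟩

end Pool.Agent.Lib.MP_4a6af7_co.Thr
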