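import Mathlib
import Pool.Agent.Lib.MP_4a6af7_co.Deg.Alloc

/-! Blocked allocations and a double count. -/

set_option autoImplicit false

namespace Pool.Agent.Lib.MP_4a6af7_co.Thr

open Finset Pool.Agent.Lib.MP_4a6af7_co.Deg

variable {I C : Type} [Fintype I] [DecidableEq I] [Fintype C] [DecidableEq C]

theorem alloc_str (J : Finset I) (a : I → C → ℕ) (c : C → ℕ)
    (hno : ∀ (R : Finset I) (U : Finset C) (m : C → ℕ), R ⊆ J → ∑ i, m i + 1 ≤ J.card →
      (∀ i ∈ U, m i = c i ∧ ∃ j ∈ J, c i < a j i) → (∀ j ∈ R, ∀ i, i ∉ U → a j i ≤ m i) →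
      R.card ≤ ∑ i ∈ U, c i) :
    ∃ φ, Val J a c φ ∧ ∀ j ∈ J, φ j ≠ none := by
  classical
  obtain ⟨φ, hφ, hmax⟩ := exists_max_image (univ.filter (Val J a c)) (pot a)
    ⟨fun _ => none, mem_filter.mpr ⟨mem_univ _, fun _ _ => rfl, by simp, by simp [load]⟩⟩
  replace hφ := (mem_filter.mp hφ).2
  refine ⟨φ, hφ, fun j₀ hj₀ h0 => ?_⟩
  let T : C → Prop := fun i => load φ i = c i ∧ ∀ j, φ j = some i → load φ i < a j i
  let L : I → Prop := fun j => j ∈ J ∧ ∃ i, ¬ T i ∧ load φ i < a j i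
  have hN : ∑ i, load φ i + 1 ≤ J.card := by
    have := sum_load (φ := φ) (S := J.erase j₀) fun j hj => by
      by_cases e : j = j₀
      · exact e ▸ h0
      · exact hφ.1 j fun h => hj (mem_erase.mpr ⟨e, h⟩)
    have := card_erase_add_one hj₀
    omega
  obtain ⟨σ, s1, s2⟩ := (Fintype.all_card_le_filter_rel_iff_exists_injective
    (fun j j' => (j = j' ∧ j' ≠ j₀) ∨ (j' = j₀ ∧ L j) ∨
      (j ∈ J ∧ ∃ i, T i ∧ φ j' = some i ∧ c i < a j i))).mp fun S => by
    by_cases hS : j₀ ∈ S → ∃ j ∈ S, L j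
    · refine card_le_card fun j hj => mem_filter.mpr ⟨mem_univ _, ?_⟩
      by_cases e : j = j₀
      · obtain ⟨l, l1, l2⟩ := hS (e ▸ hj)
        exact ⟨l, l1, Or.inr (Or.inl ⟨e, l2⟩)⟩
      · exact ⟨j, hj, Or.inl ⟨rfl, e⟩⟩
    push Not at hS
    let U := univ.filter fun i => T i ∧ ∃ j ∈ S ∩ J, c i < a j i
    have h2 : (S ∩ J).card ≤ ∑ i ∈ U, load φ i := by
      have b := hno (S ∩ J) U (load φ) inter_subset_right hN (fun i hi => by
        obtain ⟨t, j, b1, b2⟩ := (mem_filter.mp hi).2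
        exact ⟨t.1, j, (mem_inter.mp b1).2, b2⟩) fun j hj i hi => by
          by_contra b
          push Not at b
          have t : T i := by_contra fun t =>
            hS.2 j (mem_inter.mp hj).1 ⟨(mem_inter.mp hj).2, i, t, b⟩
          exact hi (mem_filter.mpr ⟨mem_univ _, t, j, hj, t.1 ▸ b⟩)
      rwa [sum_congr rfl fun i hi => (mem_filter.mp hi).2.1.1]
    have h5 : ∑ i ∈ U, load φ i = (U.biUnion fun i => univ.filter fun j => φ j = some i).card := by
      rw [card_biUnion]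
      · rfl
      · intro i _ i' _ hi
        exact disjoint_filter.mpr fun j _ h1 h2 => hi (Option.some_injective _ (h1.symm.trans h2))
    have h6 := card_inter_add_card_sdiff S J
    refine le_trans ?_ (card_le_card (s := (U.biUnion fun i => univ.filter fun j => φ j = some i) ∪
      (S \ J)) fun j hj => mem_filter.mpr ⟨mem_univ _, ?_⟩)
    · rw [card_union_of_disjoint]
      · omega
      · refine disjoint_left.mpr fun j b1 b2 => ?_
        obtain ⟨i, -, hi⟩ := mem_biUnion.mp b1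
        have := (mem_filter.mp hi).2
        simp [hφ.1 j (mem_sdiff.mp b2).2] at this
    · rcases mem_union.mp hj with b | b
      · obtain ⟨i, b1, b2⟩ := mem_biUnion.mp b
        obtain ⟨b3, l, b4, b5⟩ := (mem_filter.mp b1).2
        exact ⟨l, (mem_inter.mp b4).1, Or.inr (Or.inr ⟨(mem_inter.mp b4).2, i, b3,
          (mem_filter.mp b2).2, b5⟩)⟩
      · exact ⟨j, (mem_sdiff.mp b).1, Or.inl ⟨rfl, fun e => (mem_sdiff.mp b).2 (e ▸ hj₀)⟩⟩
  have hb := Finite.injective_iff_bijective.mp s1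
  have e := load_comp φ hb
  have hv : Val J a c (φ ∘ σ) := by
    refine ⟨fun j hj => ?_, fun j i hj => ?_, fun i => e ▸ hφ.2.2 i⟩
    · rcases s2 j with b | b | b
      · rw [Function.comp, ← b.1, hφ.1 j hj]
      · exact absurd b.2.1 hj
      · exact absurd b.1 hj
    · rw [e]
      rw [Function.comp] at hj
      rcases s2 j with b | b | ⟨-, i', b1, b2, b3⟩
      · exact hφ.2.1 j i (b.1 ▸ hj)
      · simp [b.1, h0] at hj
      · obtain rfl := Option.some_injective _ (hj.symm.trans b2)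
        exact (hφ.2.2 i).trans b3.le
  have hp : pot a φ ≤ pot a (φ ∘ σ) := by
    unfold pot
    rw [e]
    refine Nat.add_le_add_left ?_ _
    rw [← card_bijective (s := univ.filter fun j => σ j ∈ strict a φ) σ hb fun j => by simp]
    refine card_le_card fun j hj => ?_
    obtain ⟨i, b1, b2⟩ := (mem_filter.mp (mem_filter.mp hj).2).2
    refine mem_filter.mpr ⟨mem_univ _, i, b1, ?_⟩
    rw [e]
    rcases s2 j with b | b | ⟨-, i', b3, b4, b5⟩
    · exact b.1 ▸ b2
    · simp [b.1, h0] at b1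
    · obtain rfl := Option.some_injective _ (b1.symm.trans b4)
      exact b3.1 ▸ b5
  obtain ⟨l, hl⟩ := hb.2 j₀
  obtain ⟨l1, i, l2, l3⟩ : L l := by
    rcases s2 l with b | b | ⟨-, i', -, b4, -⟩
    · exact absurd hl b.2
    · exact b.2
    · simp [hl, h0] at b4
  obtain ⟨φ', p1, p2⟩ := improve hv l1 (i := i) (by rw [Function.comp, hl, h0]) (e ▸ l3) (by
    rw [e]
    rintro ⟨t1, t2⟩
    refine l2 ⟨t1, fun j hj => ?_⟩
    obtain ⟨j', rfl⟩ := hb.2 j
    rcases s2 j' with b | b | ⟨-, i', b3, b4, -⟩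
    · exact b.1 ▸ t2 j' hj
    · simp [b.1, h0] at hj
    · obtain rfl := Option.some_injective _ (hj.symm.trans b4)
      exact absurd b3 l2)
  have := hmax φ' (mem_filter.mpr ⟨mem_univ _, p1⟩)
  omega

omit [Fintype I] [Fintype C] in
theorem count (R : Finset I) (U : Finset C) (A θ : C → ℕ) (N : C → Finset I) (d : I → C → ℕ)
    (s : I → Prop) [DecidablePred s] (h0 : ∀ c ∈ U, θ c ≤ A c)
    (h1 : ∀ c ∈ U, (N c).card ≤ A c + θ c) (h2 : ∀ c ∈ U, ∀ j ∈ R, j ∉ N c → θ c + 1 ≤ d j c)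
    (h3 : ∀ j ∈ R, ∑ c ∈ U, d j c + 1 ≤ U.card)
    (h3' : ∀ j ∈ R, ¬ s j → ∑ c ∈ U, d j c + 2 ≤ U.card) (h4 : ∑ c ∈ U, A c + 1 ≤ R.card) :
    ∃ c ∈ U, A c + 1 ≤ (R.filter fun j => s j ∧ d j c = 0).card := by
  by_cases hb : ∃ c ∈ U, R.card ≤ A c + θ c
  · obtain ⟨c, hc, hb⟩ := hb
    have e1 := add_sum_erase U A hc
    have e2 := card_erase_add_one hc
    have e3 : R.card ≤ (R.filter fun j => ∀ c' ∈ U.erase c, j ∉ N c').card +
        ∑ c' ∈ U.erase c, (A c' + θ c') := by
      refine le_trans (card_le_card (t := (R.filter fun j => ∀ c' ∈ U.erase c, j ∉ N c') ∪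
        (U.erase c).biUnion N) fun j hj => ?_) ((card_union_le _ _).trans (Nat.add_le_add_left
          (card_biUnion_le.trans (sum_le_sum fun c' h => h1 c' (mem_of_mem_erase h))) _))
      by_cases b : ∀ c' ∈ U.erase c, j ∉ N c'
      · exact mem_union_left _ (mem_filter.mpr ⟨hj, b⟩)
      · push Not at b
        exact mem_union_right _ (mem_biUnion.mpr b)
    have e4 : ∀ j ∈ R.filter fun j => ∀ c' ∈ U.erase c, j ∉ N c',
        d j c + (∑ c' ∈ U.erase c, θ c' + (U.erase c).card) ≤ ∑ c' ∈ U, d j c' := fun j hj => by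
      rw [← add_sum_erase U (d j) hc, card_eq_sum_ones, ← sum_add_distrib]
      exact Nat.add_le_add_left (sum_le_sum fun c' h => h2 c' (mem_of_mem_erase h) j
        (mem_filter.mp hj).1 ((mem_filter.mp hj).2 c' h)) _
    have e5 : ∑ c' ∈ U.erase c, θ c' ≤ ∑ c' ∈ U.erase c, A c' :=
      sum_le_sum fun c' h => h0 c' (mem_of_mem_erase h)
    have e6 := h0 c hc
    rw [sum_add_distrib] at e3
    obtain ⟨j, hj⟩ : (R.filter fun j => ∀ c' ∈ U.erase c, j ∉ N c').Nonempty :=
      card_pos.mp (by omega)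
    have e7 := e4 j hj
    have e8 := h3 j (mem_filter.mp hj).1
    refine ⟨c, hc, le_trans (by omega) (card_le_card (s := R.filter fun j =>
      ∀ c' ∈ U.erase c, j ∉ N c') fun k hk => mem_filter.mpr ⟨(mem_filter.mp hk).1, ?_⟩)⟩
    have e9 := e4 k hk
    have e10 := h3 k (mem_filter.mp hk).1
    exact ⟨by_contra fun h => by have := h3' k (mem_filter.mp hk).1 h; omega, by omega⟩
  · exfalso
    push Not at hb
    have e1 : ∀ j ∈ R, ∑ c ∈ U, θ c + 1 ≤ ∑ c ∈ U, if j ∈ N c then θ c + 1 else 0 := fun j hj => by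
      have : ∑ c ∈ U, (θ c + 1) ≤ ∑ c ∈ U, ((if j ∈ N c then θ c + 1 else 0) + d j c) :=
        sum_le_sum fun c hc => by
          split_ifs with b
          · omega
          · have := h2 c hc j hj b
            omega
      rw [sum_add_distrib, sum_add_distrib, ← card_eq_sum_ones] at this
      have := h3 j hj
      omega
    have e2 := sum_le_sum e1
    rw [sum_const, smul_eq_mul, sum_comm] at e2
    have e3 : ∑ c ∈ U, ∑ j ∈ R, (if j ∈ N c then θ c + 1 else 0) + ∑ c ∈ U, θ c ≤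
        ∑ c ∈ U, (R.card * θ c + A c + θ c) := by
      rw [← sum_add_distrib]
      refine sum_le_sum fun c hc => ?_
      rw [← sum_filter, sum_const, smul_eq_mul]
      have b1 : (R.filter fun j => j ∈ N c).card ≤ A c + θ c :=
        (card_le_card fun j hj => (mem_filter.mp hj).2).trans (h1 c hc)
      have b2 := Nat.mul_le_mul_right (θ c + 1) b1
      have b3 := Nat.mul_le_mul_right (θ c) (Nat.succ_le_of_lt (hb c hc))
      nlinarith
    rw [sum_add_distrib, sum_add_distrib, ← mul_sum] at e3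
    rw [mul_add] at e2
    omega

end Pool.Agent.Lib.MP_4a6af7_co.Thr
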