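import Mathlib
import Pool.Agent.Lib.MP_4a6af7_co.Thr.Count
import Pool.Agent.Lib.MP_4a6af7_co.Thr.Tools

/-! The threshold for rainbow matchings in graphs whose short cycles are components. -/

set_option autoImplicit false

namespace Pool.Agent.Lib.MP_4a6af7_co.Thr

open Finset Pool.Agent.Lib.MP_4a6af7_co.Lin Pool.Agent.Lib.MP_4a6af7_co.Deg

variable {V I : Type} [DecidableEq V] [DecidableEq I]

/-- The rows are large matchings, and the rows outside `Z` have one more edge. -/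
def Good (E : Finset (Sym2 V)) (Z J : Finset I) (A : I → Finset (Sym2 V)) : Prop :=
  ∀ j ∈ J, A j ⊆ E ∧ IsMat id (A j) ∧ J.card ≤ (A j).card ∧ (j ∉ Z → J.card + 1 ≤ (A j).card)

/-- An even cycle on which many rows of `Z` are perfect matchings. -/
def Alp (E : Finset (Sym2 V)) (Z J : Finset I) (A : I → Finset (Sym2 V)) (b : ℕ) : Prop :=
  ∃ F ⊆ E, Circ F ∧ F.card = 2 * (b + 1) ∧
    b + 1 ≤ (J.filter fun j => j ∈ Z ∧ (A j ∩ F).card = b + 1).card

variable {E : Finset (Sym2 V)}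

theorem Alp.mono (nd : ∀ e ∈ E, ¬ e.IsDiag) {Z Z' J J' : Finset I} {A A' : I → Finset (Sym2 V)}
    {b : ℕ} (h : Alp E Z' J' A' b) (hZ : Z' ⊆ Z) (hJ : J' ⊆ J) (hA : ∀ j, A' j ⊆ A j)
    (hM : ∀ j ∈ J, IsMat id (A j)) : Alp E Z J A b := by
  obtain ⟨F, f1, f2, f3, f4⟩ := h
  refine ⟨F, f1, f2, f3, f4.trans (card_le_card fun j hj => ?_)⟩
  obtain ⟨a1, a2, a3⟩ := mem_filter.mp hj
  have := half f2 (fun e he => nd e (f1 he)) (hM j (hJ a1))
  have := card_le_card (inter_subset_inter_right (u := F) (hA j))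
  exact mem_filter.mpr ⟨hJ a1, hZ a2, by omega⟩

theorem lemA [Nonempty (Sym2 V)] [Fintype I] (hE : Cls I E) (nd : ∀ e ∈ E, ¬ e.IsDiag)
    (Z : Finset I) (n : ℕ) : ∀ (J : Finset I) (A : I → Finset (Sym2 V)), J.card = n →
      Good E Z J A → RO J A ∨ ∃ b, Alp E Z J A b := by
  classical
  induction n using Nat.strong_induction_on with
  | h n ih =>
  intro J A hJ hG
  have hM : ∀ j ∈ J, IsMat id (A j) := fun j hj => (hG j hj).2.1
  by_cases h : ∃ F ⊆ E, Circ F ∧ ∃ b, F.card = 2 * (b + 1) ∧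
      ∃ P ⊆ F, IsMat id P ∧ P.card = b + 1 ∧ Srv J A P
  · obtain ⟨F, f1, f2, b, f3, P, p1, p2, p3, S, s1, s2, g, g1, g2⟩ := h
    have c1 := card_sdiff_add_card_eq_card s1
    rcases ih _ (by omega) (J \ S) (fun j => A j \ F) rfl (fun j hj => by
      obtain ⟨a1, a2, a3, a4⟩ := hG j (mem_sdiff.mp hj).1
      have := half f2 (fun e he => nd e (f1 he)) a2
      have := card_sdiff_add_card_inter (A j) F
      beta_reduce
      exact ⟨sdiff_subset.trans a1, a2.mono sdiff_subset, by omega,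
        fun h => by have := a4 h; omega⟩) with h | ⟨b', h⟩
    · exact Or.inl (serve (hE.1 F f1 f2 (by have := card_le_univ S; omega))
        (fun j hj => (hG j hj).1) (ro_inj p2 p1 g1 g2) h)
    · exact Or.inr ⟨b', h.mono nd Subset.rfl sdiff_subset (fun _ => sdiff_subset) hM⟩
  push Not at h
  refine or_iff_not_imp_right.mpr fun hA => ?_
  obtain ⟨𝒞, c1, c2, c3⟩ := hE.2
  have hsum : ∀ j ∈ J, (A j).card ≤ ∑ F : 𝒞, (A j ∩ F.1).card := fun j hj =>
    (card_le_card (t := (univ : Finset 𝒞).biUnion fun F => A j ∩ F.1) fun e he =>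
      let ⟨F, f1, f2⟩ := c2 e ((hG j hj).1 he)
      mem_biUnion.mpr ⟨⟨F, f1⟩, mem_univ _, mem_inter.mpr ⟨he, f2⟩⟩).trans card_biUnion_le
  obtain ⟨φ, ⟨p1, p2, p3⟩, p4⟩ := alloc_str (C := 𝒞) J (fun j F => (A j ∩ F.1).card)
    (fun F => if Circ F.1 then (F.1.card - 1) / 2 else F.1.card) fun R U m hR hm hU hU' => by
      by_contra hlt
      have u1 : ∀ F ∈ U, Circ F.1 ∧ F.1.card = 2 * ((F.1.card - 1) / 2 + 1) := fun F hF => by
        obtain ⟨-, j, j1, j2⟩ := hU F hF
        by_cases b : Circ F.1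
        · have := half b (fun e he => nd e ((c1 _ F.2).1 he)) (hM j j1)
          simp only [if_pos b] at j2
          exact ⟨b, by omega⟩
        · simp only [if_neg b] at j2
          exact absurd (card_le_card inter_subset_right) (not_le.mpr j2)
      have u2 : ∀ F : 𝒞, ∃ (θ : ℕ) (N : Finset I), F ∈ U → θ ≤ (F.1.card - 1) / 2 ∧
          N.card ≤ (F.1.card - 1) / 2 + θ ∧
          ∀ j ∈ J, j ∉ N → (A j ∩ F.1).card + θ ≤ (F.1.card - 1) / 2 := fun F => by
        by_cases hF : F ∈ U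
        · obtain ⟨θ, a1, N, -, a2, a3⟩ := col (u1 F hF).1 (fun e he => nd e ((c1 _ F.2).1 he))
            (u1 F hF).2 hM (h _ (c1 _ F.2).1 (u1 F hF).1 _ (u1 F hF).2)
          exact ⟨θ, N, fun _ => ⟨a1, a2, a3⟩⟩
        · exact ⟨0, ∅, fun a => absurd a hF⟩
      choose θ N u2 using u2
      have u3 : ∑ F ∈ U, (if Circ F.1 then (F.1.card - 1) / 2 else F.1.card) =
          ∑ F ∈ U, (F.1.card - 1) / 2 := sum_congr rfl fun F hF => if_pos (u1 F hF).1
      have u4 : ∀ j ∈ R, ∑ F ∈ U, ((F.1.card - 1) / 2 + 1 - (A j ∩ F.1).card) + (A j).card + 1 ≤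
          U.card + J.card := fun j hj => by
        have b1 := hsum j (hR hj)
        rw [← sum_add_sum_compl U] at b1 hm
        have b2 : ∑ F ∈ Uᶜ, (A j ∩ F.1).card ≤ ∑ F ∈ Uᶜ, m F :=
          sum_le_sum fun F hF => hU' j hj F (mem_compl.mp hF)
        have b3 : ∑ F ∈ U, (((F.1.card - 1) / 2 + 1 - (A j ∩ F.1).card) + (A j ∩ F.1).card) =
            ∑ F ∈ U, (m F + 1) := sum_congr rfl fun F hF => by
          have := half (u1 F hF).1 (fun e he => nd e ((c1 _ F.2).1 he)) (hM j (hR hj))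
          have := (u1 F hF).2
          rw [(hU F hF).1, if_pos (u1 F hF).1]
          omega
        rw [sum_add_distrib, sum_add_distrib, ← card_eq_sum_ones] at b3
        omega
      obtain ⟨F, hF, b⟩ := count R U (fun F => (F.1.card - 1) / 2) θ N
        (fun j F => (F.1.card - 1) / 2 + 1 - (A j ∩ F.1).card) (· ∈ Z) (fun F hF => (u2 F hF).1)
        (fun F hF => (u2 F hF).2.1)
        (fun F hF j hj b => by have := (u2 F hF).2.2 j (hR hj) b; omega)
        (fun j hj => by have := u4 j hj; have := (hG j (hR hj)).2.2.1; omega)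
        (fun j hj b => by have := u4 j hj; have := (hG j (hR hj)).2.2.2 b; omega)
        (by rw [u3] at hlt; exact not_le.mp hlt)
      refine hA ⟨_, F.1, (c1 _ F.2).1, (u1 F hF).1, (u1 F hF).2, b.trans (card_le_card
        fun j hj => ?_)⟩
      obtain ⟨a1, a2, a3⟩ := mem_filter.mp hj
      have := half (u1 F hF).1 (fun e he => nd e ((c1 _ F.2).1 he)) (hM j (hR a1))
      have := (u1 F hF).2
      exact mem_filter.mpr ⟨hR a1, a2, by omega⟩
  have hrb : ∀ F : 𝒞, RO (univ.filter fun j => φ j = some F) fun j => A j ∩ F.1 := fun F => by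
    have a0 : ∀ j ∈ univ.filter fun j => φ j = some F, IsMat id (A j) ∧
        (univ.filter fun j => φ j = some F).card ≤ (A j ∩ F.1).card := fun j hj =>
      ⟨hM j (by_contra fun a => by
        have := (mem_filter.mp hj).2
        simp [p1 j a] at this), p2 j F (mem_filter.mp hj).2⟩
    by_cases b : Circ F.1
    · have b1 := p3 F
      have b2 := card_pos.mpr b.1
      simp only [if_pos b, load] at b1
      exact ro_col b (by omega) a0
    · exact (c1 _ F.2).2.resolve_right b _ _ a0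
  choose e e1 e2 using hrb
  refine ⟨fun j => (φ j).elim (Classical.arbitrary _) fun F => e F j, fun j hj => ?_,
    fun j hj k hk hne => ?_⟩
  · obtain ⟨F, hF⟩ := Option.ne_none_iff_exists'.mp (p4 j hj)
    simp only [hF, Option.elim]
    exact (mem_inter.mp (e1 F j (mem_filter.mpr ⟨mem_univ _, hF⟩))).1
  · obtain ⟨F, hF⟩ := Option.ne_none_iff_exists'.mp (p4 j hj)
    obtain ⟨F', hF'⟩ := Option.ne_none_iff_exists'.mp (p4 k hk)
    simp only [hF, hF', Option.elim]
    by_cases b : F = F'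
    · subst b
      exact e2 F j (mem_filter.mpr ⟨mem_univ _, hF⟩) k (mem_filter.mpr ⟨mem_univ _, hF'⟩) hne
    · exact c3 _ F.2 _ F'.2 (fun a => b (Subtype.ext a)) _
        (mem_inter.mp (e1 F j (mem_filter.mpr ⟨mem_univ _, hF⟩))).2 _
        (mem_inter.mp (e1 F' k (mem_filter.mpr ⟨mem_univ _, hF'⟩))).2

theorem thr [Nonempty (Sym2 V)] [Fintype I] (hE : Cls I E) (nd : ∀ e ∈ E, ¬ e.IsDiag)
    (Z : Finset I) (n : ℕ) : ∀ (J : Finset I) (A : I → Finset (Sym2 V)), J.card = n →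
      Good E Z J A → 2 * (J ∩ Z).card ≤ n + 1 → RO J A := by
  classical
  induction n using Nat.strong_induction_on with
  | h n ih =>
  intro J A hJ hG hZ
  have hM : ∀ j ∈ J, IsMat id (A j) := fun j hj => (hG j hj).2.1
  have hS : ∀ j ∈ J, A j ⊆ E := fun j hj => (hG j hj).1
  refine (lemA hE nd Z _ J A rfl hG).elim id fun hex => ?_
  obtain ⟨F, f1, f2, f3, f4⟩ := Nat.find_spec hex
  have hmin : ∀ b, Alp E Z J A b → Nat.find hex ≤ b := fun b h => Nat.find_min' hex h
  generalize Nat.find hex = b at f3 f4 hmin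
  have ndF : ∀ e ∈ F, ¬ e.IsDiag := fun e he => nd e (f1 he)
  set W := J.filter fun j => j ∈ Z ∧ (A j ∩ F).card = b + 1 with hW
  have w1 : ∀ j, j ∈ W ↔ j ∈ J ∧ j ∈ Z ∧ (A j ∩ F).card = b + 1 := fun j => mem_filter
  have w2 : W ⊆ J ∩ Z := fun j hj => mem_inter.mpr ⟨((w1 j).mp hj).1, ((w1 j).mp hj).2.1⟩
  have w3 := card_le_card w2
  have iso : Iso E F := hE.1 F f1 f2 (by have := card_le_univ W; omega)
  have sz : ∀ j ∈ J, n ≤ (A j \ F).card + (b + 1) ∧ (j ∉ W → n ≤ (A j \ F).card + b) ∧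
      (j ∉ Z → n ≤ (A j \ F).card + b) := fun j hj => by
    obtain ⟨-, a2, a3, a4⟩ := hG j hj
    have := half f2 ndF a2
    have := card_sdiff_add_card_inter (A j) F
    refine ⟨by omega, fun h => ?_, fun h => by have := a4 h; omega⟩
    by_cases a : j ∈ Z
    · have : (A j ∩ F).card ≠ b + 1 := fun e => h ((w1 j).mpr ⟨hj, a, e⟩)
      omega
    · have := a4 a
      omega
  have small : ∀ J' ⊆ J, ∀ Z' ⊆ W, (∀ j ∈ J', j ∈ W → j ∈ Z') → Z'.card ≤ b →
      J'.card + (b + 1) ≤ n → RO J' fun j => A j \ F := fun J' a1 Z' a2 a3 a4 a5 => by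
    refine (lemA hE nd Z' _ J' _ rfl fun j hj => ?_).elim id fun ⟨b', h⟩ => ?_
    · obtain ⟨s1, s2, -⟩ := sz j (a1 hj)
      exact ⟨sdiff_subset.trans (hS j (a1 hj)), (hM j (a1 hj)).mono sdiff_subset, by omega,
        fun h => by have := s2 fun h' => h (a3 j hj h'); omega⟩
    · have b1 := hmin b' (h.mono nd (fun j hj => (mem_inter.mp (w2 (a2 hj))).2) a1
        (fun _ => sdiff_subset) hM)
      obtain ⟨F', -, -, -, b2⟩ := h
      have b3 := b2.trans (card_le_card (t := Z') fun j hj => (mem_filter.mp hj).2.1)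
      omega
  have pm : ∀ P ⊆ F, IsMat id P → P.card = b + 1 → ∀ j ∈ W, ∀ e ∈ F, (e ∈ A j ∩ F ↔ e ∈ P) →
      A j ∩ F = P := fun P a1 a2 a3 j hj e he h =>
    pm_eq f2 ndF inter_subset_right a1 ((hM j ((w1 j).mp hj).1).mono inter_subset_left) a2
      (by rw [((w1 j).mp hj).2.2, f3]) (by rw [a3, f3]) he h
  by_cases h1 : ∃ P ⊆ F, IsMat id P ∧ P.card = b + 1 ∧ b + 1 ≤ (W.filter fun j => P ⊆ A j).card
  · obtain ⟨P, p1, p2, p3, p4⟩ := h1
    obtain ⟨S, s1, s2⟩ := exists_subset_card_eq p4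
    have s3 : S ⊆ J ∩ Z := s1.trans ((filter_subset _ _).trans w2)
    have s4 : S ⊆ J := s3.trans inter_subset_left
    obtain ⟨g, g1, g2⟩ := all_inj (fun u hu => (mem_filter.mp (s1 hu)).2) (s2.trans p3.symm).le
    have c1 := card_sdiff_add_card_eq_card s4
    have c2 := card_sdiff_add_card_eq_card s3
    have c3 : ((J \ S) ∩ Z).card ≤ ((J ∩ Z) \ S).card := card_le_card fun j hj =>
      mem_sdiff.mpr ⟨mem_inter.mpr ⟨(mem_sdiff.mp (mem_inter.mp hj).1).1, (mem_inter.mp hj).2⟩,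
        (mem_sdiff.mp (mem_inter.mp hj).1).2⟩
    refine serve iso hS (ro_inj p2 p1 g1 g2) (ih _ (by omega) _ _ rfl (fun j hj => ?_)
      (by omega))
    obtain ⟨a1, -, a3⟩ := sz j (mem_sdiff.mp hj).1
    exact ⟨sdiff_subset.trans (hS j (mem_sdiff.mp hj).1),
      (hM j (mem_sdiff.mp hj).1).mono sdiff_subset, by omega, fun h => by have := a3 h; omega⟩
  push Not at h1
  have oth : ∀ P ⊆ F, IsMat id P → P.card = b + 1 →
      (W.filter fun j => ¬ P ⊆ A j).card ≤ b := fun P a1 a2 a3 => by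
    rcases (W.filter fun j => ¬ P ⊆ A j).eq_empty_or_nonempty with h | ⟨k, hk⟩
    · simp [h]
    obtain ⟨e, he⟩ : P.Nonempty := card_pos.mp (by omega)
    have key : ∀ j ∈ W.filter fun j => ¬ P ⊆ A j, e ∉ A j ∩ F := fun j hj a =>
      (mem_filter.mp hj).2 (pm P a1 a2 a3 j (mem_filter.mp hj).1 e (a1 he) (iff_of_true a he) ▸
        inter_subset_left)
    have hk' := (w1 k).mp (mem_filter.mp hk).1
    have := h1 (A k ∩ F) inter_subset_right ((hM k hk'.1).mono inter_subset_left) hk'.2.2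
    refine le_trans (card_le_card fun j hj => mem_filter.mpr ⟨(mem_filter.mp hj).1, ?_⟩)
      (Nat.le_of_lt_succ this)
    exact pm _ inter_subset_right ((hM k hk'.1).mono inter_subset_left) hk'.2.2 j
      (mem_filter.mp hj).1 e (a1 he) (iff_of_false (key j hj) (key k hk)) ▸ inter_subset_left
  by_cases h2 : ∃ P ⊆ F, IsMat id P ∧ P.card = b + 1 ∧ Srv J A P
  · obtain ⟨P, p1, p2, p3, S, s1, s2, g, g1, g2⟩ := h2
    have u1 := h1 P p1 p2 p3
    set U := W.filter fun j => P ⊆ A j with hU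
    obtain ⟨S₁, t1, t2⟩ := exists_subset_card_eq (s := S \ U) (n := b + 1 - U.card)
      (by have := le_card_sdiff U S; omega)
    have t3 : S₁ ⊆ S := t1.trans sdiff_subset
    obtain ⟨g', g3, g4⟩ := ext_inj (U := U) (g1.mono t3) (fun j hj => g2 j (t3 hj))
      (fun u hu => (mem_filter.mp hu).2) (by omega)
    have t4 : (S₁ ∪ U).card = S₁.card + U.card :=
      card_union_of_disjoint (disjoint_left.mpr fun j a => (mem_sdiff.mp (t1 a)).2)
    have t5 : S₁ ∪ U ⊆ J := union_subset (t3.trans s1)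
      ((filter_subset _ _).trans (filter_subset _ _))
    have t6 := card_sdiff_add_card_eq_card t5
    refine serve iso hS (ro_inj p2 p1 g3 g4) (small _ sdiff_subset
      (W.filter fun j => ¬ P ⊆ A j) (filter_subset _ _) (fun j hj a => ?_) (oth P p1 p2 p3)
      (by omega))
    exact mem_filter.mpr ⟨a, fun a' => (mem_sdiff.mp hj).2
      (mem_union_right _ (mem_filter.mpr ⟨a, a'⟩))⟩
  push Not at h2
  obtain ⟨θ, t1, N, t2, t3, t4⟩ := col f2 ndF f3 hM h2
  have n1 : W ⊆ N := fun j hj => by_contra fun a => by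
    have := t4 j ((w1 j).mp hj).1 a
    have := ((w1 j).mp hj).2.2
    omega
  have n2 : W.card ≤ 2 * b := by
    obtain ⟨k, hk⟩ : W.Nonempty := card_pos.mp (by omega)
    have hk' := (w1 k).mp hk
    have a1 := h1 (A k ∩ F) inter_subset_right ((hM k hk'.1).mono inter_subset_left) hk'.2.2
    have a2 := oth (A k ∩ F) inter_subset_right ((hM k hk'.1).mono inter_subset_left) hk'.2.2
    have a3 := card_filter_add_card_filter_not (s := W) fun j => A k ∩ F ⊆ A j
    omega
  obtain ⟨S, s1, s2⟩ := exists_subset_card_eq (s := W) (n := b) (by omega)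
  have s3 : S ⊆ N := s1.trans n1
  have c1 := card_sdiff_add_card_eq_card s3
  have c2 := card_sdiff_add_card_eq_card s1
  have c3 := card_sdiff_add_card_eq_card t2
  have c4 := card_le_card n1
  obtain ⟨e, e1, e2⟩ := small (N \ S) (sdiff_subset.trans t2) (W \ S) sdiff_subset
    (fun j hj a => mem_sdiff.mpr ⟨a, (mem_sdiff.mp hj).2⟩) (by omega) (by omega)
  have c5 : ((J \ N) ∩ Z).card + W.card ≤ (J ∩ Z).card := by
    rw [← card_union_of_disjoint (disjoint_left.mpr fun j a a' =>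
      (mem_sdiff.mp (mem_inter.mp a).1).2 (n1 a'))]
    exact card_le_card (union_subset (inter_subset_inter_right sdiff_subset) w2)
  have r1 := ih _ (by omega) (J \ N)
    (fun j => (A j \ F).filter fun f => ∀ i ∈ N \ S, ∀ v, v ∈ e i → v ∉ f) rfl (fun j hj => by
      obtain ⟨a1, a2, a3, a4⟩ := hG j (mem_sdiff.mp hj).1
      have b1 := loss (a2.mono (sdiff_subset (t := F))) (N \ S) e
      have b2 := t4 j (mem_sdiff.mp hj).1 (mem_sdiff.mp hj).2
      have b3 := card_sdiff_add_card_inter (A j) F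
      beta_reduce
      exact ⟨(filter_subset _ _).trans (sdiff_subset.trans a1),
        a2.mono ((filter_subset _ _).trans sdiff_subset), by omega,
        fun h => by have := a4 h; omega⟩) (by omega)
  refine serve (S := S) iso hS (ro_col f2 (by omega) fun j hj =>
    ⟨hM j ((w1 j).mp (s1 hj)).1, by rw [((w1 j).mp (s1 hj)).2.2]; omega⟩) ?_
  have r2 : (J \ S) \ (N \ S) = J \ N := by
    ext j
    simp only [mem_sdiff]
    exact ⟨fun h => ⟨h.1.1, fun a => h.2 ⟨a, h.1.2⟩⟩,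
      fun h => ⟨⟨h.1, fun a => h.2 (s3 a)⟩, fun a => h.2 a.1⟩⟩
  refine RO.glue (S := N \ S) (B := fun j => {e j}) ⟨e, fun j _ => mem_singleton_self _, e2⟩
    (r2 ▸ r1) (fun j => ?_) (fun _ => filter_subset _ _) fun j hj k _ x hx f hf v hv => ?_
  · by_cases a : j ∈ N \ S
    · exact Or.inl (singleton_subset_iff.mpr (e1 j a))
    · exact Or.inr a
  · exact (mem_filter.mp hf).2 j hj v (mem_singleton.mp hx ▸ hv)

end Pool.Agent.Lib.MP_4a6af7_co.Thr
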