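import Mathlib

/-! An even cycle and short paths carry a family without a full rainbow matching. -/

set_option autoImplicit false

namespace Pool.Agent.Lib.MP_4a6af7_co.Thr

open Finset Sum

variable (b k : ℕ)

/-- One side of the bipartite graph. -/
abbrev Side : Type := ZMod (b + 2) ⊕ (Fin k ⊕ Fin k)

variable {b k}

/-- The second neighbour of a left vertex. -/
def nxt : Side b k → Side b k
  | inl x => inl (x + 1)
  | inr (inl t) => inr (inl t)
  | inr (inr t) => inr (inl t)

/-- The second neighbour of a right vertex. -/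
def prv : Side b k → Side b k
  | inl x => inl (x - 1)
  | inr (inl t) => inr (inr t)
  | inr (inr t) => inr (inr t)

/-- Left vertices covered by row `i`. -/
def dom (i : ℕ) : Finset (Side b k) :=
  univ.disjSum ((univ.filter fun t : Fin k => t.val = i).disjSum univ)

/-- Partners in row `i`. -/
def par (i : ℕ) : Side b k → Side b k
  | inl x => inl (x + if i ≤ b then 0 else 1)
  | inr (inl t) => inr (inl t)
  | inr (inr t) => if t.val = i then inr (inr t) else inr (inl t)

/-- The graph. -/
def gr : SimpleGraph (Bool × Side b k) :=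
  SimpleGraph.fromRel fun u v => u.1 = false ∧ v.1 = true ∧ (v.2 = u.2 ∨ v.2 = nxt u.2)

/-- Row `i`. -/
def row (i : ℕ) : Finset (Sym2 (Bool × Side b k)) :=
  (dom i).image fun x => s((false, x), (true, par i x))

theorem par_or (i : ℕ) (x : Side b k) : par i x = x ∨ par i x = nxt x := by
  rcases x with x | t | t
  · by_cases h : i ≤ b <;> simp [par, nxt, h]
  · simp [par]
  · by_cases h : t.val = i <;> simp [par, nxt, h]

theorem nxt_or (x : Side b k) : x = nxt x ∨ x = prv (nxt x) := by
  rcases x with x | t | t <;> simp [nxt, prv]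

theorem gr_adj {u v : Bool × Side b k} : gr.Adj u v ↔ u ≠ v ∧
    ((u.1 = false ∧ v.1 = true ∧ (v.2 = u.2 ∨ v.2 = nxt u.2)) ∨
      (v.1 = false ∧ u.1 = true ∧ (u.2 = v.2 ∨ u.2 = nxt v.2))) :=
  SimpleGraph.fromRel_adj _ _ _

theorem gr_col : (gr (b := b) (k := k)).Colorable 2 := by
  refine ⟨SimpleGraph.Coloring.mk (fun v => if v.1 then 0 else 1) fun {u v} h => ?_⟩
  rcases gr_adj.mp h with ⟨-, h | h⟩ <;> simp [h.1, h.2.1]

theorem gr_deg (v : Bool × Side b k) : (gr.neighborSet v).encard ≤ 2 := by
  refine (Set.encard_le_encard (t := {(!v.1, v.2), (!v.1, if v.1 then prv v.2 else nxt v.2)})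
    fun w h => ?_).trans ((Set.encard_insert_le _ _).trans (by
      rw [Set.encard_singleton]; exact le_rfl))
  obtain ⟨v1, v2⟩ := v
  obtain ⟨w1, w2⟩ := w
  rcases gr_adj.mp h with ⟨-, ⟨h1, h2, h3⟩ | ⟨h1, h2, h3⟩⟩
  · dsimp only at h1 h2 h3
    subst h1 h2
    simpa using h3
  · dsimp only at h1 h2 h3
    subst h1 h2
    rcases h3 with rfl | rfl
    · simp
    · simpa using nxt_or w2

theorem row_edge (i : ℕ) : ∀ e ∈ row (b := b) (k := k) i, e ∈ gr.edgeSet := fun e he => by
  obtain ⟨x, -, rfl⟩ := mem_image.mp he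
  exact gr_adj.mpr ⟨by simp, Or.inl ⟨rfl, rfl, par_or i x⟩⟩

theorem par_inj (i : ℕ) : ∀ x ∈ dom (b := b) (k := k) i, ∀ y ∈ dom i, par i x = par i y → x = y := by
  rintro (x | t | t) hx (y | s | s) hy h <;> simp only [par, dom] at hx hy h <;>
    (try split_ifs at h) <;> simp_all

theorem row_mat (i : ℕ) : ∀ e ∈ row (b := b) (k := k) i, ∀ f ∈ row i, e ≠ f →
    ∀ v, v ∈ e → v ∉ f := fun e he f hf hne v h1 h2 => by
  obtain ⟨x, hx, rfl⟩ := mem_image.mp he
  obtain ⟨y, hy, rfl⟩ := mem_image.mp hf
  have : x ≠ y := fun h => hne (h ▸ rfl)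
  rcases Sym2.mem_iff.mp h1 with rfl | rfl <;> rcases Sym2.mem_iff.mp h2 with h | h
  · exact this (Prod.mk.inj h).2
  · simp at h
  · simp at h
  · exact this (par_inj i x hx y hy (Prod.mk.inj h).2)

theorem row_card (i : ℕ) : (row (b := b) (k := k) i).card = b + 2 + k + if i < k then 1 else 0 := by
  have hi : Function.Injective fun x : Side b k => s((false, x), (true, par i x)) := by
    intro x y h
    rcases Sym2.eq_iff.mp h with h | h
    · exact (Prod.mk.inj h.1).2
    · simp at h
  rw [row, card_image_of_injective _ hi, dom, card_disjSum, card_disjSum,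
    card_univ, card_univ, ZMod.card, Fintype.card_fin]
  split_ifs with h
  · rw [card_eq_one.mpr ⟨⟨i, h⟩, by ext t; simp [Fin.ext_iff]⟩]
    omega
  · rw [filter_false_of_mem fun t _ (e : t.val = i) => h (e ▸ t.2), card_empty]
    omega

theorem no_rainbow (hk : k ≤ b) {n : ℕ} (hn : n = b + 2 + k) (e : Fin n → Sym2 (Bool × Side b k))
    (h1 : ∀ i, e i ∈ row i.val) (h2 : ∀ i j, i ≠ j → ∀ v, v ∈ e i → v ∉ e j) : False := by
  choose x x1 x2 using fun i => mem_image.mp (h1 i)
  have a1 : ∀ i j, x i = x j → i = j := fun i j h => by_contra fun hne =>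
    h2 i j hne (false, x i) (x2 i ▸ Sym2.mem_mk_left _ _) (x2 j ▸ h ▸ Sym2.mem_mk_left _ _)
  have a2 : ∀ i j, par i.val (x i) = par j.val (x j) → i = j := fun i j h => by_contra fun hne =>
    h2 i j hne (true, par i.val (x i)) (x2 i ▸ Sym2.mem_mk_right _ _)
      (x2 j ▸ h ▸ Sym2.mem_mk_right _ _)
  let u : Fin n → ZMod (b + 2) := fun i => (x i).elim id fun _ => 0
  let S : Finset (Fin n) := univ.filter fun i => x i = inl (u i)
  have s1 : Sᶜ.card ≤ k := by
    rw [← card_range k]
    refine card_le_card_of_injOn (fun i => (x i).elim (fun _ => 0) (Sum.elim Fin.val Fin.val))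
      (fun i hi => ?_) fun i hi j hj h => ?_
    · have : x i ≠ inl (u i) := by simpa [S] using hi
      rcases e : x i with y | t | t
      · simp [u, e] at this
      · simp [e]
      · simp [e]
    · have b1 : x i ≠ inl (u i) := by simpa [S] using hi
      have b2 : x j ≠ inl (u j) := by simpa [S] using hj
      have c1 := x1 i
      have c2 := x1 j
      have c3 := a1 i j
      have c4 := a2 i j
      rcases e : x i with y | t | t <;> rcases e' : x j with z | s | s <;>
        simp only [u, e, e', dom, par, elim_inl, elim_inr, id, ne_eq, not_true_eq_false] at *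
      · exact c3 (by rw [Fin.ext h])
      · by_cases c : s.val = j.val
        · exact Fin.ext (by simp at c1; omega)
        · exact c4 (by rw [if_neg c, Fin.ext h])
      · by_cases c : t.val = i.val
        · exact Fin.ext (by simp at c2; omega)
        · exact c4 (by rw [if_neg c, Fin.ext h])
      · exact c3 (by rw [Fin.ext h])
  have s2 : b + 2 ≤ S.card := by
    have := card_add_card_compl S
    rw [Fintype.card_fin] at this
    omega
  have s3 : ∀ w : Fin n → ZMod (b + 2), Set.InjOn w S → ∑ i ∈ S, w i = ∑ z, z := fun w hw => by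
    rw [← sum_image (f := fun z => z) hw, eq_univ_of_card (S.image w) (le_antisymm (card_le_univ _)
      (by rw [card_image_of_injOn hw, ZMod.card]; exact s2))]
  have s4 := s3 u fun i hi j hj h => a1 i j (by
    rw [(mem_filter.mp hi).2, (mem_filter.mp hj).2, h])
  have s5 := s3 (fun i => u i + if i.val ≤ b then 0 else 1) fun i hi j hj h => a2 i j (by
    rw [(mem_filter.mp hi).2, (mem_filter.mp hj).2]
    exact congrArg inl h)
  rw [sum_add_distrib, s4, add_eq_left, sum_ite, sum_const_zero, zero_add, sum_const,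
    nsmul_eq_mul, mul_one, ZMod.natCast_eq_zero_iff] at s5
  have s6 : (S.filter fun i => ¬ i.val ≤ b).card ≤ (Ico (b + 1) n).card :=
    card_le_card_of_injOn Fin.val (fun i hi => mem_coe.mpr (mem_Ico.mpr
      ⟨by have := (mem_filter.mp hi).2; omega, i.2⟩)) Fin.val_injective.injOn
  have s7 : (S.filter fun i => i.val ≤ b).card ≤ (range (b + 1)).card :=
    card_le_card_of_injOn Fin.val (fun i hi => mem_coe.mpr (mem_range.mpr
      (by have := (mem_filter.mp hi).2; omega))) Fin.val_injective.injOn
  have s8 := card_filter_add_card_filter_not (s := S) fun i => i.val ≤ b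
  rw [Nat.card_Ico] at s6
  rw [card_range] at s7
  have := Nat.le_of_dvd (by omega) s5
  omega

end Pool.Agent.Lib.MP_4a6af7_co.Thr
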